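import Pool.Agent.LRY.Stmts

/-!
# LRY, row CUB (helper48): units of a number field in a box, uniformly in the field
-/

set_option autoImplicit false

open Polynomial NumberField
open Pool.Agent.LRY Pool.Agent.LRG.E

namespace Pool.Agent.LRY.H48

theorem log_bounds {E : Type} [Field E] [NumberField E] {n : ℕ} (hn : Module.finrank ℚ E ≤ n)
    {Y : ℝ} (hY : 1 ≤ Y) (b : (𝓞 E)ˣ) (hb : ∀ σ : E →+* ℂ, ‖σ ((b : 𝓞 E) : E)‖ ≤ Y)
    (w : InfinitePlace E) :
    Real.log (w ((b : 𝓞 E) : E)) ≤ Real.log Y ∧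
      -((n : ℝ) * Real.log Y) ≤ Real.log (w ((b : 𝓞 E) : E)) := by
  classical
  have hL : 0 ≤ Real.log Y := Real.log_nonneg hY
  have hb0 : ((b : 𝓞 E) : E) ≠ 0 := Units.coe_ne_zero b
  have hpos : ∀ v : InfinitePlace E, 0 < v ((b : 𝓞 E) : E) := fun v =>
    InfinitePlace.pos_iff.2 hb0
  have hle : ∀ v : InfinitePlace E, Real.log (v ((b : 𝓞 E) : E)) ≤ Real.log Y := by
    intro v
    refine Real.log_le_log (hpos v) ?_
    rw [← InfinitePlace.norm_embedding_eq]
    exact hb _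
  refine ⟨hle w, ?_⟩
  rcases le_or_gt 0 (Real.log (w ((b : 𝓞 E) : E))) with h0 | h0
  · have : 0 ≤ (n : ℝ) * Real.log Y := by positivity
    linarith
  · have hsum := Units.sum_mult_mul_log b
    rw [← Finset.add_sum_erase _ _ (Finset.mem_univ w)] at hsum
    have h1 : ∑ v ∈ Finset.univ.erase w, (v.mult : ℝ) * Real.log (v ((b : 𝓞 E) : E)) ≤
        ∑ v ∈ Finset.univ.erase w, (v.mult : ℝ) * Real.log Y :=
      Finset.sum_le_sum fun v _ => mul_le_mul_of_nonneg_left (hle v) (Nat.cast_nonneg _)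
    have h2 : ∑ v ∈ Finset.univ.erase w, (v.mult : ℝ) * Real.log Y ≤
        ∑ v : InfinitePlace E, (v.mult : ℝ) * Real.log Y :=
      Finset.sum_le_sum_of_subset_of_nonneg (Finset.erase_subset _ _)
        fun v _ _ => mul_nonneg (Nat.cast_nonneg _) hL
    have h3 : ∑ v : InfinitePlace E, (v.mult : ℝ) * Real.log Y =
        (Module.finrank ℚ E : ℝ) * Real.log Y := by
      rw [← Finset.sum_mul, ← Nat.cast_sum, InfinitePlace.sum_mult_eq]
    have h4 : (Module.finrank ℚ E : ℝ) * Real.log Y ≤ (n : ℝ) * Real.log Y :=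
      mul_le_mul_of_nonneg_right (by exact_mod_cast hn) hL
    have h5 : (w.mult : ℝ) * Real.log (w ((b : 𝓞 E) : E)) ≤ Real.log (w ((b : 𝓞 E) : E)) := by
      have h6 : (1 : ℝ) ≤ w.mult := by exact_mod_cast InfinitePlace.mult_pos
      nlinarith
    linarith

theorem cub : CubStmt := by
  classical
  intro cab n
  refine ⟨((21 : ℝ) * (n + 2)) ^ n, by positivity, ?_⟩
  intro E _ _ hn Y hY
  have hL : 0 ≤ Real.log Y := Real.log_nonneg hY
  have hfin : ∀ Z : ℝ, 1 ≤ Z →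
      {b : (𝓞 E)ˣ | ∀ σ : E →+* ℂ, ‖σ ((b : 𝓞 E) : E)‖ ≤ Z}.Finite := fun Z hZ =>
    (cab E Z hZ).1.preimage (Units.val_injective.injOn)
  refine ⟨hfin Y hY, ?_⟩
  set S := {b : (𝓞 E)ˣ | ∀ σ : E →+* ℂ, ‖σ ((b : 𝓞 E) : E)‖ ≤ Y} with hS
  set F : Finset (𝓞 E)ˣ := (hfin Y hY).toFinset with hF
  have hmem : ∀ b, b ∈ F ↔ ∀ σ : E →+* ℂ, ‖σ ((b : 𝓞 E) : E)‖ ≤ Y := by
    intro b
    rw [hF, Set.Finite.mem_toFinset]
    rfl
  rw [Set.ncard_eq_toFinset_card _ (hfin Y hY)]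
  let Ψ : (𝓞 E)ˣ → InfinitePlace E → ℤ := fun b w => ⌊Real.log (w ((b : 𝓞 E) : E))⌋
  -- the fibres
  have hfib : ∀ k ∈ F.image Ψ, (F.filter fun b => Ψ b = k).card ≤ 21 ^ n := by
    intro k hk
    obtain ⟨b₀, hb₀, rfl⟩ := Finset.mem_image.1 hk
    obtain ⟨hf3, hc3⟩ := cab E 3 (by norm_num)
    have h1 : (F.filter fun b => Ψ b = Ψ b₀).card ≤
        {a : 𝓞 E | ∀ σ : E →+* ℂ, ‖σ (a : E)‖ ≤ 3}.ncard := by
      rw [Set.ncard_eq_toFinset_card _ hf3]
      refine Finset.card_le_card_of_injOn (fun b => ((b * b₀⁻¹ : (𝓞 E)ˣ) : 𝓞 E)) ?_ ?_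
      · intro b hb
        rw [Finset.mem_coe, Finset.mem_filter] at hb
        rw [Finset.mem_coe, Set.Finite.mem_toFinset]
        intro σ
        have hw := congrFun hb.2 (InfinitePlace.mk σ)
        have hb0 : ∀ c : (𝓞 E)ˣ, 0 < (InfinitePlace.mk σ) ((c : 𝓞 E) : E) := fun c =>
          InfinitePlace.pos_iff.2 (Units.coe_ne_zero c)
        have h2 : Real.log ((InfinitePlace.mk σ) ((b : 𝓞 E) : E)) <
            Real.log ((InfinitePlace.mk σ) ((b₀ : 𝓞 E) : E)) + 1 := by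
          have h3 := Int.lt_floor_add_one (Real.log ((InfinitePlace.mk σ) ((b : 𝓞 E) : E)))
          have h4 := Int.floor_le (Real.log ((InfinitePlace.mk σ) ((b₀ : 𝓞 E) : E)))
          have h5 : (⌊Real.log ((InfinitePlace.mk σ) ((b : 𝓞 E) : E))⌋ : ℝ) =
              (⌊Real.log ((InfinitePlace.mk σ) ((b₀ : 𝓞 E) : E))⌋ : ℝ) := by
            exact_mod_cast hw
          linarith
        have h3 : (InfinitePlace.mk σ) ((b : 𝓞 E) : E) ≤
            3 * (InfinitePlace.mk σ) ((b₀ : 𝓞 E) : E) := by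
          have h6 : (InfinitePlace.mk σ) ((b : 𝓞 E) : E) <
              Real.exp (Real.log ((InfinitePlace.mk σ) ((b₀ : 𝓞 E) : E)) + 1) := by
            rw [← Real.log_lt_iff_lt_exp (hb0 b)]
            exact h2
          rw [Real.exp_add, Real.exp_log (hb0 b₀)] at h6
          have h7 := Real.exp_one_lt_d9
          have h8 := hb0 b₀
          nlinarith
        have h4 : ((b : 𝓞 E) : E) = (((b * b₀⁻¹ : (𝓞 E)ˣ) : 𝓞 E) : E) * ((b₀ : 𝓞 E) : E) := by
          rw [← map_mul (algebraMap (𝓞 E) E), ← Units.val_mul, inv_mul_cancel_right]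
        rw [h4, map_mul] at h3
        have h5 := le_of_mul_le_mul_right h3 (hb0 b₀)
        exact h5
      · intro b _ b' _ h
        exact mul_right_cancel (Units.val_injective h)
    have h2 : ({a : 𝓞 E | ∀ σ : E →+* ℂ, ‖σ (a : E)‖ ≤ 3}.ncard : ℝ) ≤ (21 : ℝ) ^ n := by
      refine hc3.trans ?_
      have h3 : (7 : ℝ) * 3 = 21 := by norm_num
      rw [h3]
      exact pow_le_pow_right₀ (by norm_num) hn
    have h3 : {a : 𝓞 E | ∀ σ : E →+* ℂ, ‖σ (a : E)‖ ≤ 3}.ncard ≤ 21 ^ n := by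
      exact_mod_cast h2
    exact h1.trans h3
  have hcard := Finset.card_le_mul_card_image F (21 ^ n) hfib
  -- the image
  set lo : ℤ := ⌊-((n : ℝ) * Real.log Y)⌋ with hlo
  set hi : ℤ := ⌊Real.log Y⌋ with hhi
  have himg : (F.image Ψ).card ≤ (Finset.Icc lo hi).card ^ n := by
    have h1 : F.image Ψ ⊆ Fintype.piFinset fun _ : InfinitePlace E => Finset.Icc lo hi := by
      intro k hk
      obtain ⟨b, hb, rfl⟩ := Finset.mem_image.1 hk
      rw [Fintype.mem_piFinset]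
      intro w
      obtain ⟨h2, h3⟩ := log_bounds hn hY b ((hmem b).1 hb) w
      rw [Finset.mem_Icc]
      exact ⟨Int.floor_le_floor h3, Int.floor_le_floor h2⟩
    refine (Finset.card_le_card h1).trans ?_
    rw [Fintype.card_piFinset, Finset.prod_const, Finset.card_univ]
    have h2 : Fintype.card (InfinitePlace E) ≤ n := by
      refine le_trans ?_ hn
      rw [← InfinitePlace.sum_mult_eq, Fintype.card_eq_sum_ones]
      exact Finset.sum_le_sum fun w _ => InfinitePlace.mult_pos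
    refine Nat.pow_le_pow_right ?_ h2
    refine Finset.card_pos.2 (Finset.nonempty_Icc.2 (Int.floor_le_floor ?_))
    have : 0 ≤ (n : ℝ) * Real.log Y := by positivity
    linarith
  have hIcc : ((Finset.Icc lo hi).card : ℝ) ≤ ((n : ℝ) + 2) * (1 + Real.log Y) := by
    rw [Int.card_Icc]
    have h1 : lo ≤ hi := by
      refine Int.floor_le_floor ?_
      have : 0 ≤ (n : ℝ) * Real.log Y := by positivity
      linarith
    have h2 : (((hi + 1 - lo).toNat : ℕ) : ℝ) = (hi : ℝ) + 1 - lo := by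
      have h3 : (((hi + 1 - lo).toNat : ℕ) : ℤ) = hi + 1 - lo := Int.toNat_of_nonneg (by omega)
      exact_mod_cast h3
    rw [h2]
    have h3 : (hi : ℝ) ≤ Real.log Y := Int.floor_le _
    have h4 : -((n : ℝ) * Real.log Y) < (lo : ℝ) + 1 := Int.lt_floor_add_one _
    have h5 : (0 : ℝ) ≤ n := Nat.cast_nonneg n
    nlinarith
  calc (F.card : ℝ) ≤ ((21 ^ n * (F.image Ψ).card : ℕ) : ℝ) := by exact_mod_cast hcard
    _ = (21 : ℝ) ^ n * ((F.image Ψ).card : ℝ) := by push_cast; ring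
    _ ≤ (21 : ℝ) ^ n * ((Finset.Icc lo hi).card : ℝ) ^ n := by
        refine mul_le_mul_of_nonneg_left ?_ (by positivity)
        exact_mod_cast himg
    _ ≤ (21 : ℝ) ^ n * (((n : ℝ) + 2) * (1 + Real.log Y)) ^ n := by
        refine mul_le_mul_of_nonneg_left ?_ (by positivity)
        exact pow_le_pow_left₀ (Nat.cast_nonneg _) hIcc n
    _ = ((21 : ℝ) * (n + 2)) ^ n * (1 + Real.log Y) ^ n := by
        rw [mul_pow, mul_pow]
        ring

end Pool.Agent.LRY.H48
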